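import Pool.Agent.Helper58.LC.Core

/-!
# MP_10ef18_an, project LC: consequences of the main inequality
-/

set_option autoImplicit false

namespace Pool.Agent.Helper58.LC

open Set MeasureTheory Filter Topology Pool.Agent.Helper82.HG

/-- the truncated integral is at most `log (K / ε)` -/
theorem int_le {K : ℝ} (hK : 1 ≤ K) (Λ : Set ℝ) {ε : ℝ} (hε0 : 0 < ε) :
    ∫ z in Icc (0 : ℝ) 1, Real.log (1 / max (Metric.infDist z Λ) (ε / K)) ≤ Real.log (K / ε) := by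
  have hK0 : 0 < K := by linarith
  have h1 : Real.log (K / ε) = ∫ z in Icc (0 : ℝ) 1, Real.log (K / ε) := by
    rw [setIntegral_const]
    simp
  have hi2 := int_log (Λ := Λ) (show 0 < ε / K by positivity)
  have hi3 : IntegrableOn (fun _ : ℝ => Real.log (K / ε)) (Icc (0 : ℝ) 1) volume :=
    integrableOn_const (by simp) (by simp)
  rw [h1]
  apply integral_mono hi2 hi3
  intro z
  have p0 : 0 < ε / K := by positivity
  have p2 : 0 < max (Metric.infDist z Λ) (ε / K) := lt_of_lt_of_le p0 (le_max_right _ _)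
  show Real.log (1 / max (Metric.infDist z Λ) (ε / K)) ≤ Real.log (K / ε)
  apply Real.log_le_log (by positivity)
  rw [div_le_div_iff₀ p2 hε0, one_mul]
  have h3 := le_max_right (Metric.infDist z Λ) (ε / K)
  rw [div_le_iff₀ hK0] at h3
  linarith

/-- the truncated integral for a null set with integrable logarithm of the distance -/
theorem int_le' {K : ℝ} (hK : 1 ≤ K) (Λ : Set ℝ) (hne : Λ.Nonempty) (hc : IsClosed Λ) (h0 : volume Λ = 0)
    (hi : IntegrableOn (fun z => Real.log (Metric.infDist z Λ)) (Icc (0 : ℝ) 1) volume)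
    {ε : ℝ} (hε0 : 0 < ε) :
    ∫ z in Icc (0 : ℝ) 1, Real.log (1 / max (Metric.infDist z Λ) (ε / K)) ≤
      ∫ z in Icc (0 : ℝ) 1, |Real.log (Metric.infDist z Λ)| := by
  have hK0 : 0 < K := by linarith
  have hi2 := int_log (Λ := Λ) (show 0 < ε / K by positivity)
  apply integral_mono_ae hi2 hi.abs
  have h1 : ∀ᵐ z ∂(volume : Measure ℝ), z ∉ Λ := measure_eq_zero_iff_ae_notMem.1 h0
  filter_upwards [ae_restrict_of_ae h1] with z hz
  have hd : 0 < Metric.infDist z Λ := (hc.notMem_iff_infDist_pos hne).1 hz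
  have p2 : 0 < max (Metric.infDist z Λ) (ε / K) := lt_of_lt_of_le hd (le_max_left _ _)
  rw [one_div, Real.log_inv]
  have h3 := Real.log_le_log hd (le_max_left (Metric.infDist z Λ) (ε / K))
  have h4 := neg_le_abs (Real.log (Metric.infDist z Λ))
  linarith

section

variable {K : ℝ} {S : Set (Equiv.Perm ℝ)} {Λ : Set ℝ}

/-- the number of orbits with a gap of length at least `ε` -/
theorem cor_card (hK : 1 ≤ K) (hG : Gens K S) (hL : Lam S Λ)
    (V : Finset (ℝ × ℝ)) (hV : ∀ u ∈ V, Gap Λ u.1 u.2)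
    (hne : ∀ u ∈ V, ∀ v ∈ V, (∃ g ∈ Gr S, ⇑g '' Ioo u.1 u.2 = Ioo v.1 v.2) → u = v)
    {ε : ℝ} (hε0 : 0 < ε) (hε1 : ε ≤ 1) (hlen : ∀ u ∈ V, ε ≤ u.2 - u.1) :
    (V.card : ℝ) ^ 2 * ε ≤
      75000 * K * (1 + ∫ z in Icc (0 : ℝ) 1, Real.log (1 / max (Metric.infDist z Λ) (ε / K))) := by
  have h1 := core2 hK hG hL V hV hne hε0 hε1
  have hpos : ∀ u ∈ V, 0 < ol (Gr S) u 0 := fun u hu => ol_pos hG hL (hV u hu)
  have h2 : ε * ∑ u ∈ V, 1 / ol (Gr S) u 0 ≤ ∑ u ∈ V, ol (Gr S) u ε / ol (Gr S) u 0 := by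
    rw [Finset.mul_sum]
    apply Finset.sum_le_sum
    intro u hu
    rw [mul_one_div]
    exact div_le_div_of_nonneg_right (le_ol_self hG hL (hV u hu) (hlen u hu)) (hpos u hu).le
  have h3 := sum_ol hG hL V hV hne
  have h4 : (V.card : ℝ) ^ 2 ≤ (∑ u ∈ V, ol (Gr S) u 0) * ∑ u ∈ V, 1 / ol (Gr S) u 0 := by
    have h5 := Finset.sum_sq_le_sum_mul_sum_of_sq_eq_mul V (r := fun _ => (1 : ℝ))
      (f := fun u => ol (Gr S) u 0) (g := fun u => 1 / ol (Gr S) u 0)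
      (fun u hu => (hpos u hu).le) (fun u hu => by have := hpos u hu; positivity)
      (fun u hu => by
        have := hpos u hu
        field_simp)
    simpa using h5
  have h6 : 0 ≤ ∑ u ∈ V, 1 / ol (Gr S) u 0 := Finset.sum_nonneg fun u hu => by
    have := hpos u hu
    positivity
  have h7 : (V.card : ℝ) ^ 2 ≤ ∑ u ∈ V, 1 / ol (Gr S) u 0 := by
    refine h4.trans ?_
    have := mul_le_mul_of_nonneg_right h3 h6
    linarith
  have h8 := mul_le_mul_of_nonneg_left h7 hε0.le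
  linarith

/-- the long part of an orbit exhausts the orbit -/
theorem tendsto_ol {u : ℝ × ℝ} (hu : u.1 < u.2) :
    Tendsto (fun n : ℕ => ol (Gr S) u (1 / ((n : ℝ) + 1))) atTop (𝓝 (ol (Gr S) u 0)) := by
  have hmono : Monotone fun n : ℕ => OL (Gr S) u (1 / ((n : ℝ) + 1)) ∩ Ico (0 : ℝ) 1 := by
    intro m n hmn
    rintro x ⟨⟨g, hg, h1, h2⟩, h3⟩
    refine ⟨⟨g, hg, ?_, h2⟩, h3⟩
    refine le_trans ?_ h1
    exact Nat.one_div_le_one_div hmn
  have hun : (⋃ n : ℕ, OL (Gr S) u (1 / ((n : ℝ) + 1)) ∩ Ico (0 : ℝ) 1) = OL (Gr S) u 0 ∩ Ico (0 : ℝ) 1 := by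
    ext x
    rw [mem_iUnion]
    constructor
    · rintro ⟨n, ⟨g, hg, h1, h2⟩, h3⟩
      exact ⟨⟨g, hg, abs_nonneg _, h2⟩, h3⟩
    · rintro ⟨⟨g, hg, h1, h2⟩, h3⟩
      have h4 : g u.2 ≠ g u.1 := fun h => hu.ne' (g.injective h)
      have h5 : 0 < |g u.2 - g u.1| := abs_pos.2 (sub_ne_zero.2 h4)
      obtain ⟨n, hn⟩ := exists_nat_one_div_lt h5
      exact ⟨n, ⟨g, hg, hn.le, h2⟩, h3⟩
  have h := tendsto_measure_iUnion_atTop (μ := volume) hmono
  rw [hun] at h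
  exact (ENNReal.tendsto_toReal (fin_vol _)).comp h

/-- the number of orbits of gaps, for a null set with integrable logarithm of the distance -/
theorem cor_null (hK : 1 ≤ K) (hG : Gens K S) (hL : Lam S Λ)
    (V : Finset (ℝ × ℝ)) (hV : ∀ u ∈ V, Gap Λ u.1 u.2)
    (hne : ∀ u ∈ V, ∀ v ∈ V, (∃ g ∈ Gr S, ⇑g '' Ioo u.1 u.2 = Ioo v.1 v.2) → u = v)
    (h0 : volume Λ = 0)
    (hi : IntegrableOn (fun z => Real.log (Metric.infDist z Λ)) (Icc (0 : ℝ) 1) volume) :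
    (V.card : ℝ) ≤ 75000 * K * (1 + ∫ z in Icc (0 : ℝ) 1, |Real.log (Metric.infDist z Λ)|) := by
  have hK0 : 0 < K := by linarith
  have hΛne : Λ.Nonempty := (hL.inf.nonempty).mono inter_subset_left
  have hpos : ∀ u ∈ V, 0 < ol (Gr S) u 0 := fun u hu => ol_pos hG hL (hV u hu)
  have h1 : Tendsto (fun n : ℕ => ∑ u ∈ V, ol (Gr S) u (1 / ((n : ℝ) + 1)) / ol (Gr S) u 0) atTop
      (𝓝 (∑ u ∈ V, ol (Gr S) u 0 / ol (Gr S) u 0)) :=
    tendsto_finset_sum _ fun u hu => (tendsto_ol (hV u hu).1).div_const _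
  have h2 : ∑ u ∈ V, ol (Gr S) u 0 / ol (Gr S) u 0 = (V.card : ℝ) := by
    rw [Finset.sum_congr rfl fun u hu => div_self (hpos u hu).ne']
    simp
  rw [h2] at h1
  apply le_of_tendsto' h1
  intro n
  have hn : 0 < (n : ℝ) + 1 := by positivity
  have h3 := core2 hK hG hL V hV hne (ε := 1 / ((n : ℝ) + 1)) (by positivity) (by
    rw [div_le_one hn]
    linarith [Nat.cast_nonneg (α := ℝ) n])
  have h4 := int_le' hK Λ hΛne hL.closed h0 hi (ε := 1 / ((n : ℝ) + 1)) (by positivity)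
  refine h3.trans ?_
  apply mul_le_mul_of_nonneg_left _ (by positivity)
  linarith

end

end Pool.Agent.Helper58.LC
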