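import Pool.Agent.Helper58.LC.Orb
import Pool.Agent.Helper82.HG.M_CTL
import Pool.Agent.Helper82.HG.M_CTM
import Pool.Agent.Helper82.HG.M_PA
import Pool.Agent.Helper82.HG.M_PB
import Pool.Agent.Helper82.HG.M_NCF
import Pool.Agent.Helper82.HG.M_NID
import Pool.Agent.Helper82.HG.M_CRO
import Pool.Agent.Helper82.HG.M_SEP

/-!
# MP_10ef18_an, project LC: the main inequality
-/

set_option autoImplicit false

namespace Pool.Agent.Helper58.LC

open Set MeasureTheory Pool.Agent.Helper82.HG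

theorem sepLC : StSEP :=
  tSEP (tLAM tBAS) (tNCF tBAS (tLAM tBAS) (tCTM tBAS (tCTL tBAS)) tPA (tPB tPA)) (tNID tBAS (tCTL tBAS) (tCTM tBAS (tCTL tBAS))) tCRO

/-- THE MAIN INEQUALITY for a family of gaps in different orbits. -/
theorem core {K : ℝ} {S : Set (Equiv.Perm ℝ)} {Λ : Set ℝ} (hK : 1 ≤ K) (hG : Gens K S) (hL : Lam S Λ)
    (V : Finset (ℝ × ℝ)) (hV : ∀ u ∈ V, Gap Λ u.1 u.2)
    (hne : ∀ u ∈ V, ∀ v ∈ V, (∃ g ∈ Gr S, ⇑g '' Ioo u.1 u.2 = Ioo v.1 v.2) → u = v)
    {ε : ℝ} (hε0 : 0 < ε) (hε1 : ε ≤ 1) :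
    ∑ u ∈ V, ol (Gr S) u ε / ol (Gr S) u 0 ≤
      512 * K + 8192 * K * ∫ z in Icc (0 : ℝ) 1, Real.log (1 / max (Metric.infDist z Λ) (ε / (8192 * K))) := by
  classical
  have hK0 : 0 < K := by linarith
  have hp := per hG hL
  have hΛne : Λ.Nonempty := (hL.inf.nonempty).mono inter_subset_left
  obtain ⟨-, -, lc, -, -, -, -, -⟩ := tLAM tBAS K S Λ hG hL
  have hpos : ∀ u ∈ V, 0 < ol (Gr S) u 0 := fun u hu => ol_pos hG hL (hV u hu)
  have hle1 : ∀ u, ol (Gr S) u 0 ≤ 1 := fun u => ol_le_one _ _ _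
  have hx1 : ∀ u ∈ V, ol (Gr S) u ε / ol (Gr S) u 0 ≤ 1 := fun u hu => by
    rw [div_le_one (hpos u hu)]
    exact ol_anti _ _ hε0.le
  set t : ℝ × ℝ → Finset (ℝ × ℝ) := fun u => (nn_fin hG hL u hε0).toFinset with ht
  have htm : ∀ u w, w ∈ t u ↔ w ∈ Nn S Λ u ε := fun u w => by
    rw [ht]
    exact Set.Finite.mem_toFinset _
  -- the two parts
  set V₁ := V.filter fun u => 1 / (512 * K) < ol (Gr S) u 0 with hV₁
  set V₂ := V.filter fun u => ¬ (1 / (512 * K) < ol (Gr S) u 0) with hV₂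
  have hsplit : ∑ u ∈ V, ol (Gr S) u ε / ol (Gr S) u 0 =
      ∑ u ∈ V₁, ol (Gr S) u ε / ol (Gr S) u 0 + ∑ u ∈ V₂, ol (Gr S) u ε / ol (Gr S) u 0 :=
    (Finset.sum_filter_add_sum_filter_not V _ _).symm
  have hc1 : ∑ u ∈ V₁, ol (Gr S) u ε / ol (Gr S) u 0 ≤ 512 * K := by
    have h1 : ∑ u ∈ V₁, 1 / (512 * K) ≤ ∑ u ∈ V₁, ol (Gr S) u 0 :=
      Finset.sum_le_sum fun v hv => (Finset.mem_filter.1 hv).2.le
    have h2 : ∑ u ∈ V₁, ol (Gr S) u 0 ≤ ∑ u ∈ V, ol (Gr S) u 0 :=
      Finset.sum_le_sum_of_subset_of_nonneg (Finset.filter_subset _ _) fun v hv _ => (hpos v hv).le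
    have h3 := sum_ol hG hL V hV hne
    rw [Finset.sum_const, nsmul_eq_mul] at h1
    have h4 : (V₁.card : ℝ) * (1 / (512 * K)) ≤ 1 := by linarith
    rw [mul_one_div, div_le_iff₀ (by positivity)] at h4
    have h5 : ∑ u ∈ V₁, ol (Gr S) u ε / ol (Gr S) u 0 ≤ ∑ u ∈ V₁, (1 : ℝ) :=
      Finset.sum_le_sum fun u hu => hx1 u (Finset.mem_filter.1 hu).1
    rw [Finset.sum_const, nsmul_eq_mul, mul_one] at h5
    linarith
  have hV₂V : ∀ u ∈ V₂, u ∈ V := fun u hu => (Finset.mem_filter.1 hu).1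
  have huniq : ∀ v ∈ V, ∀ v' ∈ V, ∀ w, w ∈ t v → w ∈ t v' → v = v' := by
    intro v hv v' hv' w hw hw'
    rw [htm] at hw hw'
    obtain ⟨g, hg, he⟩ := hw.2.2.2.1
    obtain ⟨k, hk, hf⟩ := hw'.2.2.2.1
    apply hne v hv v' hv'
    refine ⟨k⁻¹ * g, mul_mem (inv_mem hk) hg, ?_⟩
    have h1 : ⇑(k⁻¹ * g) = ⇑k⁻¹ ∘ ⇑g := rfl
    rw [h1, image_comp, he, ← hf, ← image_comp]
    have h2 : ⇑k⁻¹ ∘ ⇑k = id := by
      funext x
      simp
    rw [h2, image_id]
  have hdisj : Set.PairwiseDisjoint (↑V₂ : Set (ℝ × ℝ)) t := by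
    intro v hv v' hv' hne'
    rw [Function.onFun, Finset.disjoint_left]
    intro w hw hw'
    exact hne' (huniq v (hV₂V v hv) v' (hV₂V v' hv') w hw hw')
  -- the radii
  let R : ℝ × ℝ → ℝ := fun w =>
    if h : ∃ v ∈ V, w ∈ t v then (w.2 - w.1) / (2048 * K * ol (Gr S) h.choose 0) else 0
  have hR : ∀ v ∈ V, ∀ w ∈ t v, R w = (w.2 - w.1) / (2048 * K * ol (Gr S) v 0) := by
    intro v hv w hw
    have h : ∃ v ∈ V, w ∈ t v := ⟨v, hv, hw⟩
    have h1 : h.choose = v := huniq _ h.choose_spec.1 _ hv w h.choose_spec.2 hw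
    simp only [R]
    rw [dif_pos h, h1]
  have hlen : ∀ v ∈ V, ∀ w ∈ t v, w.2 - w.1 ≤ ol (Gr S) v 0 := by
    intro v hv w hw
    have h1 := le_ol0 hG hL {w} (u := v) (ε := ε) (by
      intro x hx
      rw [Finset.mem_singleton.1 hx]
      exact (htm v w).1 hw) hε0.le
    rwa [Finset.sum_singleton] at h1
  have hr1 : ε / (2048 * K) ≤ 1 := by
    rw [div_le_one (by positivity)]
    linarith
  have hc2 : ∑ u ∈ V₂.biUnion t, R u ≤
      4 * ∫ z in Icc (0 : ℝ) 1, Real.log (1 / max (Metric.infDist z Λ) (ε / (2048 * K) / 4)) := by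
    refine pack Λ hL.closed hp hΛne lc (V₂.biUnion t) R (ε / (2048 * K)) (by positivity) hr1 ?_ ?_ ?_ ?_
    · intro u hu
      rw [Finset.mem_biUnion] at hu
      obtain ⟨v, hv, huv⟩ := hu
      exact ((htm v u).1 huv).1
    · intro u hu
      rw [Finset.mem_biUnion] at hu
      obtain ⟨v, hv, huv⟩ := hu
      have hvV := hV₂V v hv
      rw [hR v hvV u huv]
      have h1 := hpos v hvV
      have h2 := (htm v u).1 huv
      have h3 := h2.2.2.2.2
      have h4 := hlen v hvV u huv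
      have h5 := hle1 v
      constructor
      · rw [div_le_div_iff₀ (by positivity) (by positivity)]
        have h6 : ε * ol (Gr S) v 0 ≤ (u.2 - u.1) * 1 := by
          calc ε * ol (Gr S) v 0 ≤ ε * 1 := mul_le_mul_of_nonneg_left h5 hε0.le
            _ ≤ (u.2 - u.1) * 1 := by linarith
        nlinarith
      · rw [div_le_one (by positivity)]
        nlinarith
    · intro u hu w hw h
      rw [Finset.mem_biUnion] at hu hw
      obtain ⟨v, hv, huv⟩ := hu
      obtain ⟨v', hv', hwv⟩ := hw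
      have h1 := (htm v u).1 huv
      have h2 := (htm v' w).1 hwv
      exact eqv_eq ⟨h1.2.1, h1.2.2.1⟩ ⟨h2.2.1, h2.2.2.1⟩ h
    · intro u hu w hw m huw
      rw [Finset.mem_biUnion] at hu hw
      obtain ⟨v, hv, huv⟩ := hu
      obtain ⟨v', hv', hwv⟩ := hw
      have hvV := hV₂V v hv
      have hvV' := hV₂V v' hv'
      have h1 := (htm v u).1 huv
      have h2 := (htm v' w).1 hwv
      have key : ∀ v ∈ V₂, ∀ u ∈ t v, 0 < 4 * R u ∧
          64 * K * (2 * ol (Gr S) v 0) * ((u.2 - u.1) + 2 * (4 * R u)) ≤ u.2 - u.1 := by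
        intro v hv u huv
        have hvV := hV₂V v hv
        have h1 := hpos v hvV
        have h2 := (htm v u).1 huv
        have h3 := h2.1.1
        have h4 : ol (Gr S) v 0 ≤ 1 / (512 * K) := not_lt.1 (Finset.mem_filter.1 hv).2
        have h5 : K * ol (Gr S) v 0 ≤ 1 / 512 := by
          rw [le_div_iff₀ (by positivity)] at h4
          linarith
        rw [hR v hvV u huv]
        have h6 : 0 < u.2 - u.1 := by linarith
        constructor
        · have : 0 < (u.2 - u.1) / (2048 * K * ol (Gr S) v 0) := div_pos h6 (by positivity)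
          linarith
        · have h7 : 64 * K * (2 * ol (Gr S) v 0) * (2 * (4 * ((u.2 - u.1) / (2048 * K * ol (Gr S) v 0)))) =
              (u.2 - u.1) / 2 := by
            field_simp
            norm_num
          have h8 : 64 * K * (2 * ol (Gr S) v 0) * (u.2 - u.1) ≤ (u.2 - u.1) / 4 := by nlinarith
          rw [mul_add, h7]
          linarith
      have k1 := key v hv u huv
      have k2 := key v' hv' w hwv
      have hT : Tot S (w.1 + m, w.2 + m) (2 * ol (Gr S) v' 0) := by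
        have := tot_of_orb (tot_w hG hL (hV v' hvV') h2) ⟨T ^ m, T_mem m, rfl⟩
        have he : act (T ^ m) w = (w.1 + (m : ℝ), w.2 + (m : ℝ)) := by
          unfold act
          rw [T_zpow', T_zpow']
        rwa [he] at this
      have hs := sepLC K S Λ hK0.le hG hL u.1 u.2 (w.1 + m) (w.2 + m) (2 * ol (Gr S) v 0)
        (2 * ol (Gr S) v' 0) (4 * R u)
        (4 * R w) h1.1 (gap_tr hp h2.1 m) huw (tot_w hG hL (hV v hvV) h1) hT k1.1 k2.1 k1.2
        (by
          have e1 : w.2 + (m : ℝ) - (w.1 + m) = w.2 - w.1 := by ring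
          rw [e1]
          exact k2.2)
      have hmin : min (4 * R u) (4 * R w) = 4 * min (R u) (R w) := by
        rcases le_total (R u) (R w) with h | h
        · rw [min_eq_left h, min_eq_left (by linarith)]
        · rw [min_eq_right h, min_eq_right (by linarith)]
      rw [hmin] at hs
      linarith
  have hc3 : ∑ u ∈ V₂, ol (Gr S) u ε / ol (Gr S) u 0 ≤ 2048 * K * ∑ u ∈ V₂.biUnion t, R u := by
    rw [Finset.sum_biUnion hdisj, Finset.mul_sum]
    apply Finset.sum_le_sum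
    intro v hv
    have hvV := hV₂V v hv
    have h3 := hpos v hvV
    have h2 : ∑ w ∈ t v, R w = (∑ w ∈ t v, (w.2 - w.1)) / (2048 * K * ol (Gr S) v 0) := by
      rw [Finset.sum_div]
      exact Finset.sum_congr rfl fun w hw => hR v hvV w hw
    have h4 := ol_le hG hL (hV v hvV) (t v) (fun w hw => (htm v w).2 hw) (fun w hw => (htm v w).1 hw)
    rw [h2]
    have h5 : 2048 * K * ((∑ w ∈ t v, (w.2 - w.1)) / (2048 * K * ol (Gr S) v 0)) =
        (∑ w ∈ t v, (w.2 - w.1)) / ol (Gr S) v 0 := by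
      field_simp
    rw [h5]
    exact div_le_div_of_nonneg_right h4 h3.le
  have e8 : ε / (2048 * K) / 4 = ε / (8192 * K) := by
    rw [div_div]
    congr 1
    ring
  rw [e8] at hc2
  have hc4 := mul_le_mul_of_nonneg_left hc2 (show 0 ≤ 2048 * K by positivity)
  rw [hsplit]
  linarith

/-- comparison of the truncations -/
theorem int_cmp {K : ℝ} (hK : 1 ≤ K) (Λ : Set ℝ) {ε : ℝ} (hε0 : 0 < ε) :
    ∫ z in Icc (0 : ℝ) 1, Real.log (1 / max (Metric.infDist z Λ) (ε / (8192 * K))) ≤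
      Real.log 8192 + ∫ z in Icc (0 : ℝ) 1, Real.log (1 / max (Metric.infDist z Λ) (ε / K)) := by
  have hK0 : 0 < K := by linarith
  have h1 : Real.log 8192 = ∫ z in Icc (0 : ℝ) 1, Real.log 8192 := by
    rw [setIntegral_const]
    simp
  have hi1 := int_log (Λ := Λ) (show 0 < ε / (8192 * K) by positivity)
  have hi2 := int_log (Λ := Λ) (show 0 < ε / K by positivity)
  have hi3 : IntegrableOn (fun _ : ℝ => Real.log 8192) (Icc (0 : ℝ) 1) volume :=
    integrableOn_const (by simp) (by simp)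
  rw [h1, ← integral_add hi3 hi2]
  apply integral_mono hi1 (hi3.add hi2)
  intro z
  have hd := Metric.infDist_nonneg (x := z) (s := Λ)
  have p1 : 0 < max (Metric.infDist z Λ) (ε / (8192 * K)) := lt_of_lt_of_le (by positivity) (le_max_right _ _)
  have p2 : 0 < max (Metric.infDist z Λ) (ε / K) := lt_of_lt_of_le (by positivity) (le_max_right _ _)
  have h2 : max (Metric.infDist z Λ) (ε / K) ≤ 8192 * max (Metric.infDist z Λ) (ε / (8192 * K)) := by
    apply max_le
    · have := le_max_left (Metric.infDist z Λ) (ε / (8192 * K))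
      linarith
    · have h3 := le_max_right (Metric.infDist z Λ) (ε / (8192 * K))
      have h4 : ε / K = 8192 * (ε / (8192 * K)) := by
        field_simp
      rw [h4]
      linarith
  show Real.log (1 / max (Metric.infDist z Λ) (ε / (8192 * K))) ≤
    Real.log 8192 + Real.log (1 / max (Metric.infDist z Λ) (ε / K))
  rw [one_div, one_div, Real.log_inv, Real.log_inv]
  have h5 := Real.log_le_log p2 h2
  rw [Real.log_mul (by norm_num) p1.ne'] at h5
  linarith

/-- THE MAIN INEQUALITY, with an explicit constant. -/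
theorem core2 {K : ℝ} {S : Set (Equiv.Perm ℝ)} {Λ : Set ℝ} (hK : 1 ≤ K) (hG : Gens K S) (hL : Lam S Λ)
    (V : Finset (ℝ × ℝ)) (hV : ∀ u ∈ V, Gap Λ u.1 u.2)
    (hne : ∀ u ∈ V, ∀ v ∈ V, (∃ g ∈ Gr S, ⇑g '' Ioo u.1 u.2 = Ioo v.1 v.2) → u = v)
    {ε : ℝ} (hε0 : 0 < ε) (hε1 : ε ≤ 1) :
    ∑ u ∈ V, ol (Gr S) u ε / ol (Gr S) u 0 ≤
      75000 * K * (1 + ∫ z in Icc (0 : ℝ) 1, Real.log (1 / max (Metric.infDist z Λ) (ε / K))) := by
  have hK0 : 0 < K := by linarith
  have h1 := core hK hG hL V hV hne hε0 hε1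
  have h2 := int_cmp hK Λ hε0
  have hΛne : Λ.Nonempty := (hL.inf.nonempty).mono inter_subset_left
  have h3 : 0 ≤ ∫ z in Icc (0 : ℝ) 1, Real.log (1 / max (Metric.infDist z Λ) (ε / K)) := by
    apply integral_nonneg
    intro z
    have p2 : 0 < max (Metric.infDist z Λ) (ε / K) := lt_of_lt_of_le (by positivity) (le_max_right _ _)
    have h4 : max (Metric.infDist z Λ) (ε / K) ≤ 1 := by
      apply max_le (infDist_le_one (per hG hL) hΛne z)
      rw [div_le_one hK0]
      linarith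
    show 0 ≤ Real.log (1 / max (Metric.infDist z Λ) (ε / K))
    rw [one_div, Real.log_inv]
    linarith [Real.log_nonpos p2.le h4]
  have h4 : Real.log 8192 ≤ 9.02 := by
    have e : Real.log 8192 = 13 * Real.log 2 := by
      rw [show (8192 : ℝ) = 2 ^ 13 by norm_num, Real.log_pow]
      push_cast
      ring
    rw [e]
    linarith [Real.log_two_lt_d9]
  set I := ∫ z in Icc (0 : ℝ) 1, Real.log (1 / max (Metric.infDist z Λ) (ε / K)) with hI
  have h5 := mul_le_mul_of_nonneg_left (h2.trans (add_le_add_left h4 I)) (show 0 ≤ 8192 * K by positivity)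
  have h6 : 8192 * K * (9.02 + I) = 73891.84 * K + 8192 * (K * I) := by ring
  have h7 : 75000 * K * (1 + I) = 75000 * K + 75000 * (K * I) := by ring
  have h8 : 0 ≤ K * I := mul_nonneg hK0.le h3
  nlinarith

end Pool.Agent.Helper58.LC
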