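import Pool.Agent.Helper58.LC.Pack
import Pool.Agent.Helper82.HG.M_SUM
import Pool.Agent.Helper82.HG.M_BAS
import Pool.Agent.Helper82.HG.M_LAM

/-!
# MP_10ef18_an, project LC: the length of a gap orbit and of its long gaps
-/

set_option autoImplicit false

namespace Pool.Agent.Helper58.LC

open Set MeasureTheory Pool.Agent.Helper82.HG

theorem T_apply' (x : ℝ) : T x = x + 1 := rfl

theorem T_zpow' (m : ℤ) : ∀ x : ℝ, (T ^ m) x = x + m := by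
  have hnat : ∀ (n : ℕ) (x : ℝ), (T ^ n) x = x + n := by
    intro n
    induction n with
    | zero => intro x; simp
    | succ n ih =>
      intro x
      rw [pow_succ', Equiv.Perm.mul_apply, ih, T_apply']
      push_cast
      ring
  intro x
  cases m with
  | ofNat n => simpa using hnat n x
  | negSucc n =>
    rw [zpow_negSucc]
    rw [Equiv.Perm.inv_eq_iff_eq]
    rw [hnat]
    push_cast
    ring

theorem T_mem {S : Set (Equiv.Perm ℝ)} (m : ℤ) : T ^ m ∈ Gr S :=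
  zpow_mem (Subgroup.subset_closure (Set.mem_insert _ _)) m

/-- normalised pair -/
noncomputable def nrm (u : ℝ × ℝ) : ℝ × ℝ :=
  (min u.1 u.2 - ⌊min u.1 u.2⌋, max u.1 u.2 - ⌊min u.1 u.2⌋)

def L (w : ℝ × ℝ) : ℝ := w.2 - w.1

theorem L_nrm (u : ℝ × ℝ) : L (nrm u) = len u := by
  have h : max u.1 u.2 - min u.1 u.2 = |u.1 - u.2| := by
    rw [max_sub_min_eq_abs, abs_sub_comm]
  unfold L nrm len
  rw [← h]
  ring

theorem nrm_nonneg (u : ℝ × ℝ) : 0 ≤ (nrm u).1 := by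
  unfold nrm
  have := Int.floor_le (min u.1 u.2)
  simp only
  linarith

theorem nrm_lt (u : ℝ × ℝ) : (nrm u).1 < 1 := by
  unfold nrm
  have := Int.lt_floor_add_one (min u.1 u.2)
  simp only
  linarith

/-- equal normal forms and equal orientation: equivalent -/
theorem eqv_of_nrm (u u' : ℝ × ℝ) (h : nrm u = nrm u') (ho : u.1 < u.2 ↔ u'.1 < u'.2) :
    Eqv u u' := by
  have h1 : min u.1 u.2 - (⌊min u.1 u.2⌋ : ℝ) = min u'.1 u'.2 - (⌊min u'.1 u'.2⌋ : ℝ) :=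
    congrArg Prod.fst h
  have h2 : max u.1 u.2 - (⌊min u.1 u.2⌋ : ℝ) = max u'.1 u'.2 - (⌊min u'.1 u'.2⌋ : ℝ) :=
    congrArg Prod.snd h
  refine ⟨⌊min u'.1 u'.2⌋ - ⌊min u.1 u.2⌋, ?_⟩
  push_cast
  by_cases hlt : u.1 < u.2
  · have hlt' := ho.1 hlt
    rw [min_eq_left hlt.le] at h1 h2 ⊢
    rw [min_eq_left hlt'.le] at h1 h2 ⊢
    rw [max_eq_right hlt.le, max_eq_right hlt'.le] at h2
    constructor <;> linarith
  · have hlt' : ¬ u'.1 < u'.2 := fun h' => hlt (ho.2 h')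
    rw [not_lt] at hlt hlt'
    rw [min_eq_right hlt] at h1 h2 ⊢
    rw [min_eq_right hlt'] at h1 h2 ⊢
    rw [max_eq_left hlt, max_eq_left hlt'] at h2
    constructor <;> linarith

/-- equivalent normal forms are equal -/
theorem nrm_eqv (u u' : ℝ × ℝ) (h : Eqv (nrm u) (nrm u')) : nrm u = nrm u' := by
  obtain ⟨m, h1, h2⟩ := h
  have a1 := nrm_nonneg u
  have a2 := nrm_lt u
  have a3 := nrm_nonneg u'
  have a4 := nrm_lt u'
  have hm : m = 0 := by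
    have b1 : (m : ℝ) < 1 := by linarith
    have b2 : (-1 : ℝ) < m := by linarith
    have c1 : m < 1 := by exact_mod_cast b1
    have c2 : -1 < m := by exact_mod_cast b2
    omega
  subst hm
  simp only [Int.cast_zero, add_zero] at h1 h2
  exact Prod.ext h1.symm h2.symm

theorem sum_fib (s : Finset (ℝ × ℝ)) (hs : ∀ u ∈ s, ∀ w ∈ s, Eqv u w → u = w) :
    ∑ u ∈ s, len u ≤ 2 * ∑ w ∈ s.image nrm, L w := by
  classical
  have h1 : ∑ u ∈ s, len u = ∑ u ∈ s, L (nrm u) := by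
    apply Finset.sum_congr rfl
    intro u _
    rw [L_nrm]
  rw [h1, Finset.sum_comp L nrm, Finset.mul_sum]
  apply Finset.sum_le_sum
  intro w hw
  obtain ⟨u, -, rfl⟩ := Finset.mem_image.1 hw
  have hL : 0 ≤ L (nrm u) := by rw [L_nrm]; exact abs_nonneg _
  rw [nsmul_eq_mul]
  apply mul_le_mul_of_nonneg_right _ hL
  have hc : (s.filter fun x => nrm x = nrm u).card ≤ (Finset.univ : Finset Bool).card := by
    apply Finset.card_le_card_of_injOn (fun x : ℝ × ℝ => decide (x.1 < x.2))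
    · intro x _
      exact Finset.mem_coe.2 (Finset.mem_univ _)
    · intro x hx y hy hxy
      rw [Finset.mem_coe, Finset.mem_filter] at hx hy
      apply hs x hx.1 y hy.1
      apply eqv_of_nrm x y (hx.2.trans hy.2.symm)
      simpa using hxy
  have h2 : (Finset.univ : Finset Bool).card = 2 := rfl
  rw [h2] at hc
  exact_mod_cast hc

theorem image_Ioo (g : Equiv.Perm ℝ) (hg : StrictMono g ∨ StrictAnti g) (a b : ℝ)
    (hab : a < b) : ⇑g '' Ioo a b = Ioo (min (g a) (g b)) (max (g a) (g b)) := by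
  ext y
  constructor
  · rintro ⟨x, ⟨hx1, hx2⟩, rfl⟩
    rcases hg with hg | hg
    · rw [min_eq_left (hg hab).le, max_eq_right (hg hab).le]
      exact ⟨hg hx1, hg hx2⟩
    · rw [min_eq_right (hg hab).le, max_eq_left (hg hab).le]
      exact ⟨hg hx2, hg hx1⟩
  · rintro ⟨h1, h2⟩
    refine ⟨g.symm y, ?_, g.apply_symm_apply y⟩
    rcases hg with hg | hg
    · rw [min_eq_left (hg hab).le] at h1
      rw [max_eq_right (hg hab).le] at h2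
      constructor
      · apply hg.lt_iff_lt.1
        rwa [g.apply_symm_apply]
      · apply hg.lt_iff_lt.1
        rwa [g.apply_symm_apply]
    · rw [min_eq_right (hg hab).le] at h1
      rw [max_eq_left (hg hab).le] at h2
      constructor
      · apply hg.lt_iff_gt.1
        rwa [g.apply_symm_apply]
      · apply hg.lt_iff_gt.1
        rwa [g.apply_symm_apply]

theorem tot_of_orb {S : Set (Equiv.Perm ℝ)} {v w : ℝ × ℝ} {Θ : ℝ} (h : Tot S v Θ)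
    (hw : w ∈ Orb S v) : Tot S w Θ := by
  intro s h1 h2
  apply h s _ h2
  intro u hu
  obtain ⟨g, hg, rfl⟩ := h1 u hu
  obtain ⟨k, hk, rfl⟩ := hw
  exact ⟨g * k, mul_mem hg hk, rfl⟩

theorem tot_swap {S : Set (Equiv.Perm ℝ)} {v : ℝ × ℝ} {Θ : ℝ} (h : Tot S v Θ) :
    Tot S v.swap Θ := by
  classical
  intro s h1 h2
  have h3 : ∑ u ∈ s, len u = ∑ u ∈ s.image Prod.swap, len u := by
    rw [Finset.sum_image (fun x _ y _ hxy => Prod.swap_injective hxy)]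
    apply Finset.sum_congr rfl
    intro u _
    unfold len
    rw [abs_sub_comm]
    rfl
  rw [h3]
  apply h
  · intro u hu
    obtain ⟨w, hw, rfl⟩ := Finset.mem_image.1 hu
    obtain ⟨g, hg, rfl⟩ := h1 w hw
    exact ⟨g, hg, rfl⟩
  · intro u hu w hw he
    obtain ⟨u', hu', rfl⟩ := Finset.mem_image.1 hu
    obtain ⟨w', hw', rfl⟩ := Finset.mem_image.1 hw
    obtain ⟨m, h4, h5⟩ := he
    rw [h2 u' hu' w' hw' ⟨m, h5, h4⟩]


/-- union of the images of the interval `u` of length at least `ε` -/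
def OL (H : Subgroup (Equiv.Perm ℝ)) (u : ℝ × ℝ) (ε : ℝ) : Set ℝ :=
  {x | ∃ g ∈ H, ε ≤ |g u.2 - g u.1| ∧ x ∈ ⇑g '' Ioo u.1 u.2}

/-- its measure modulo one -/
noncomputable def ol (H : Subgroup (Equiv.Perm ℝ)) (u : ℝ × ℝ) (ε : ℝ) : ℝ :=
  (volume (OL H u ε ∩ Ico (0 : ℝ) 1)).toReal

/-- the gaps of the orbit of `u` with left end in `[0, 1)` and length at least `ε` -/
def Nn (S : Set (Equiv.Perm ℝ)) (Λ : Set ℝ) (u : ℝ × ℝ) (ε : ℝ) : Set (ℝ × ℝ) :=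
  {w | Gap Λ w.1 w.2 ∧ 0 ≤ w.1 ∧ w.1 < 1 ∧ (∃ g ∈ Gr S, ⇑g '' Ioo u.1 u.2 = Ioo w.1 w.2) ∧ ε ≤ w.2 - w.1}

theorem ioo_inj {a b c d : ℝ} (hab : a < b) (hcd : c < d) (h : Ioo a b = Ioo c d) : a = c ∧ b = d := by
  constructor
  · rw [← csInf_Ioo hab, ← csInf_Ioo hcd, h]
  · rw [← csSup_Ioo hab, ← csSup_Ioo hcd, h]

theorem eqv_eq {u w : ℝ × ℝ} (hu : 0 ≤ u.1 ∧ u.1 < 1) (hw : 0 ≤ w.1 ∧ w.1 < 1)
    (h : Eqv u w) : u = w := by
  obtain ⟨m, h1, h2⟩ := h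
  have hm1 : (m : ℝ) < 1 := by linarith [hu.1, hw.2]
  have hm2 : (-1 : ℝ) < m := by linarith [hu.2, hw.1]
  have hm3 : m < 1 := by exact_mod_cast hm1
  have hm4 : -1 < m := by exact_mod_cast hm2
  have hm : m = 0 := by omega
  subst hm
  simp only [Int.cast_zero, add_zero] at h1 h2
  exact Prod.ext h1.symm h2.symm

section

variable {K : ℝ} {S : Set (Equiv.Perm ℝ)} {Λ : Set ℝ}

theorem per (hG : Gens K S) (hL : Lam S Λ) : ∀ x, x ∈ Λ ↔ x + 1 ∈ Λ := by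
  intro x
  have := (tLAM tBAS K S Λ hG hL).1 (T ^ (1 : ℤ)) (T_mem 1) x
  rw [T_zpow'] at this
  simpa using this.symm

theorem eq_of_mem (hG : Gens K S) (hL : Lam S Λ) {a b a' b' z : ℝ} (h : Gap Λ a b) (h' : Gap Λ a' b')
    (hz : z ∈ Ioo a b) (hz' : z ∈ Ioo a' b') : a = a' ∧ b = b' := by
  obtain ⟨-, -, -, -, -, -, -, l8⟩ := tLAM tBAS K S Λ hG hL
  by_contra hne
  have hne' : (a, b) ≠ (a', b') := fun h => hne ⟨congrArg Prod.fst h, congrArg Prod.snd h⟩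
  rcases l8 a b a' b' h h' hne' with h1 | h1
  · linarith [hz.2, hz'.1]
  · linarith [hz.1, hz'.2]

theorem img (hG : Gens K S) (hL : Lam S Λ) {u : ℝ × ℝ} (hu : Gap Λ u.1 u.2) {g : Equiv.Perm ℝ} (hg : g ∈ Gr S) :
    Gap Λ (min (g u.1) (g u.2)) (max (g u.1) (g u.2)) ∧
    ⇑g '' Ioo u.1 u.2 = Ioo (min (g u.1) (g u.2)) (max (g u.1) (g u.2)) ∧
    max (g u.1) (g u.2) - min (g u.1) (g u.2) = |g u.2 - g u.1| := by
  obtain ⟨-, -, -, -, -, -, l7, -⟩ := tLAM tBAS K S Λ hG hL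
  refine ⟨l7 u.1 u.2 hu g hg, image_Ioo g (tBAS K S hG g hg).2.2.1 u.1 u.2 hu.1, ?_⟩
  rw [max_sub_min_eq_abs]

/-- a gap of the orbit, moved to `[0, 1)` -/
theorem norm_mem (hG : Gens K S) (hL : Lam S Λ) {u : ℝ × ℝ} (hu : Gap Λ u.1 u.2) {g : Equiv.Perm ℝ} (hg : g ∈ Gr S)
    {ε : ℝ} (hε : ε ≤ |g u.2 - g u.1|) : nrm (act g u) ∈ Nn S Λ u ε := by
  obtain ⟨h1, h2, h3⟩ := img hG hL hu hg
  set m : ℤ := ⌊min (g u.1) (g u.2)⌋ with hm
  have hg' : T ^ (-m) * g ∈ Gr S := mul_mem (T_mem _) hg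
  have hval : ∀ x, (T ^ (-m) * g) x = g x - m := by
    intro x
    rw [Equiv.Perm.mul_apply, T_zpow']
    push_cast
    ring
  obtain ⟨h1', h2', h3'⟩ := img hG hL hu hg'
  rw [hval, hval] at h1' h2' h3'
  have e1 : min (g u.1 - (m : ℝ)) (g u.2 - m) = (nrm (act g u)).1 := by
    unfold nrm act
    simp only
    rw [← hm]
    rcases le_total (g u.1) (g u.2) with hle | hle
    · rw [min_eq_left hle, min_eq_left (by linarith)]
    · rw [min_eq_right hle, min_eq_right (by linarith)]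
  have e2 : max (g u.1 - (m : ℝ)) (g u.2 - m) = (nrm (act g u)).2 := by
    unfold nrm act
    simp only
    rw [← hm]
    rcases le_total (g u.1) (g u.2) with hle | hle
    · rw [max_eq_right hle, max_eq_right (by linarith)]
    · rw [max_eq_left hle, max_eq_left (by linarith)]
  rw [e1, e2] at h1' h2' h3'
  refine ⟨h1', nrm_nonneg _, nrm_lt _, ⟨_, hg', h2'⟩, ?_⟩
  rw [h3']
  have : g u.2 - (m : ℝ) - (g u.1 - m) = g u.2 - g u.1 := by ring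
  rw [this]
  exact hε

theorem sum_nn (hG : Gens K S) (hL : Lam S Λ) {u : ℝ × ℝ} {ε : ℝ} (t : Finset (ℝ × ℝ)) (ht : ∀ w ∈ t, w ∈ Nn S Λ u ε) :
    ∑ w ∈ t, (w.2 - w.1) ≤ 1 :=
  tSUM Λ (per hG hL) t (fun w hw => (ht w hw).1)
    (fun w hw w' hw' h => eqv_eq ⟨(ht w hw).2.1, (ht w hw).2.2.1⟩ ⟨(ht w' hw').2.1, (ht w' hw').2.2.1⟩ h)

theorem nn_fin (hG : Gens K S) (hL : Lam S Λ) (u : ℝ × ℝ) {ε : ℝ} (hε : 0 < ε) : (Nn S Λ u ε).Finite := by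
  by_contra hinf
  obtain ⟨n, hn⟩ := exists_nat_gt (1 / ε)
  obtain ⟨t, ht, hc⟩ := (show (Nn S Λ u ε).Infinite from hinf).exists_subset_card_eq n
  have h1 := sum_nn hG hL t (fun w hw => ht hw)
  have h2 : ∑ w ∈ t, ε ≤ ∑ w ∈ t, (w.2 - w.1) := Finset.sum_le_sum fun w hw => (ht hw).2.2.2.2
  rw [Finset.sum_const, hc, nsmul_eq_mul] at h2
  rw [div_lt_iff₀ hε] at hn
  linarith

theorem vol_piece {w : ℝ × ℝ} (h0 : 0 ≤ w.1) (h1 : w.1 < 1) (h : w.1 < w.2) :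
    volume ((Ioo w.1 w.2 ∪ Ioo (w.1 - 1) (w.2 - 1)) ∩ Ico (0 : ℝ) 1) ≤ ENNReal.ofReal (w.2 - w.1) := by
  by_cases h2 : w.2 ≤ 1
  · calc volume ((Ioo w.1 w.2 ∪ Ioo (w.1 - 1) (w.2 - 1)) ∩ Ico (0 : ℝ) 1) ≤ volume (Ioo w.1 w.2) := by
          apply measure_mono
          rintro x ⟨hx | hx, hx'⟩
          · exact hx
          · exfalso
            linarith [hx.2, hx'.1]
      _ = ENNReal.ofReal (w.2 - w.1) := Real.volume_Ioo
  · push Not at h2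
    calc volume ((Ioo w.1 w.2 ∪ Ioo (w.1 - 1) (w.2 - 1)) ∩ Ico (0 : ℝ) 1)
        ≤ volume (Ico w.1 1 ∪ Ico 0 (w.2 - 1)) := by
          apply measure_mono
          rintro x ⟨hx | hx, hx'⟩
          · exact Or.inl ⟨hx.1.le, hx'.2⟩
          · exact Or.inr ⟨hx'.1, hx.2⟩
      _ ≤ volume (Ico w.1 1) + volume (Ico 0 (w.2 - 1)) := measure_union_le _ _
      _ = ENNReal.ofReal (1 - w.1) + ENNReal.ofReal (w.2 - 1) := by
          rw [Real.volume_Ico, Real.volume_Ico, sub_zero]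
      _ = ENNReal.ofReal (w.2 - w.1) := by
          rw [← ENNReal.ofReal_add (by linarith) (by linarith)]
          congr 1
          ring

theorem ol_le (hG : Gens K S) (hL : Lam S Λ) {u : ℝ × ℝ} (hu : Gap Λ u.1 u.2) {ε : ℝ} (t : Finset (ℝ × ℝ))
    (ht : ∀ w ∈ Nn S Λ u ε, w ∈ t) (ht' : ∀ w ∈ t, w ∈ Nn S Λ u ε) :
    ol (Gr S) u ε ≤ ∑ w ∈ t, (w.2 - w.1) := by
  obtain ⟨-, -, -, -, -, l6, -, -⟩ := tLAM tBAS K S Λ hG hL
  have hnn : ∀ w ∈ t, 0 ≤ w.2 - w.1 := fun w hw => by linarith [(ht' w hw).1.1]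
  have hsub : OL (Gr S) u ε ∩ Ico (0 : ℝ) 1 ⊆
      ⋃ w ∈ t, ((Ioo w.1 w.2 ∪ Ioo (w.1 - 1) (w.2 - 1)) ∩ Ico (0 : ℝ) 1) := by
    rintro x ⟨⟨g, hg, hge, hx⟩, hx'⟩
    obtain ⟨h1, h2, h3⟩ := img hG hL hu hg
    have hw := norm_mem hG hL hu hg hge
    rw [h2] at hx
    rw [mem_iUnion₂]
    refine ⟨nrm (act g u), ht _ hw, ?_, hx'⟩
    have e1 : (nrm (act g u)).1 = min (g u.1) (g u.2) - ⌊min (g u.1) (g u.2)⌋ := rfl
    have e2 : (nrm (act g u)).2 = max (g u.1) (g u.2) - ⌊min (g u.1) (g u.2)⌋ := rfl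
    have b1 := nrm_nonneg (act g u)
    have b2 := nrm_lt (act g u)
    have b3 := l6 _ _ hw.1
    set m : ℤ := ⌊min (g u.1) (g u.2)⌋ with hm
    have c1 : (m : ℝ) < 1 := by linarith [hx.1, hx'.2]
    have c2 : (-2 : ℝ) < m := by linarith [hx.2, hx'.1]
    have c3 : m < 1 := by exact_mod_cast c1
    have c4 : -2 < m := by exact_mod_cast c2
    have c5 : m = 0 ∨ m = -1 := by omega
    rcases c5 with c | c
    · left
      rw [e1, e2, c]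
      simp only [Int.cast_zero, sub_zero]
      exact hx
    · right
      rw [e1, e2, c]
      push_cast
      constructor
      · linarith [hx.1]
      · linarith [hx.2]
  have h1 : volume (OL (Gr S) u ε ∩ Ico (0 : ℝ) 1) ≤ ENNReal.ofReal (∑ w ∈ t, (w.2 - w.1)) := by
    calc volume (OL (Gr S) u ε ∩ Ico (0 : ℝ) 1)
        ≤ volume (⋃ w ∈ t, ((Ioo w.1 w.2 ∪ Ioo (w.1 - 1) (w.2 - 1)) ∩ Ico (0 : ℝ) 1)) := measure_mono hsub
      _ ≤ ∑ w ∈ t, volume ((Ioo w.1 w.2 ∪ Ioo (w.1 - 1) (w.2 - 1)) ∩ Ico (0 : ℝ) 1) :=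
          measure_biUnion_finset_le _ _
      _ ≤ ∑ w ∈ t, ENNReal.ofReal (w.2 - w.1) :=
          Finset.sum_le_sum fun w hw => vol_piece (ht' w hw).2.1 (ht' w hw).2.2.1 (ht' w hw).1.1
      _ = ENNReal.ofReal (∑ w ∈ t, (w.2 - w.1)) := (ENNReal.ofReal_sum_of_nonneg hnn).symm
  exact ENNReal.toReal_le_of_le_ofReal (Finset.sum_nonneg hnn) h1

theorem fin_vol (A : Set ℝ) : volume (A ∩ Ico (0 : ℝ) 1) ≠ ⊤ := by
  apply ne_top_of_le_ne_top _ (measure_mono inter_subset_right)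
  rw [Real.volume_Ico]
  exact ENNReal.ofReal_ne_top

theorem le_ol (hG : Gens K S) (hL : Lam S Λ) {u : ℝ × ℝ} (t : Finset (ℝ × ℝ)) {ε : ℝ}
    (ht : ∀ w ∈ t, w ∈ Nn S Λ u ε) (hε : ∀ w ∈ t, ∀ g ∈ Gr S, ⇑g '' Ioo u.1 u.2 = Ioo w.1 w.2 → ε ≤ |g u.2 - g u.1|) :
    ∑ w ∈ t, (w.2 - w.1) ≤ ol (Gr S) u ε := by
  obtain ⟨-, -, -, -, -, l6, -, -⟩ := tLAM tBAS K S Λ hG hL
  have hp := per hG hL
  have hdis : (↑t : Set (ℝ × ℝ)).PairwiseDisjoint (fun w => E w.1 (w.2 - w.1)) := by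
    intro w hw w' hw' hne
    rw [Function.onFun, Set.disjoint_left]
    rintro z ⟨_, hz⟩ ⟨_, hz'⟩
    rw [mem_iUnion] at hz hz'
    obtain ⟨k, hk⟩ := hz
    obtain ⟨k', hk'⟩ := hz'
    have g1 := gap_tr hp (ht w hw).1 k
    have g2 := gap_tr hp (ht w' hw').1 k'
    obtain ⟨e1, e2⟩ := eq_of_mem hG hL g1 g2 (z := z) ⟨hk.1, by linarith [hk.2]⟩ ⟨hk'.1, by linarith [hk'.2]⟩
    apply hne
    apply eqv_eq ⟨(ht w hw).2.1, (ht w hw).2.2.1⟩ ⟨(ht w' hw').2.1, (ht w' hw').2.2.1⟩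
    refine ⟨k - k', ?_, ?_⟩
    · push_cast
      linarith
    · push_cast
      linarith
  have hsub : (⋃ w ∈ t, E w.1 (w.2 - w.1)) ⊆ OL (Gr S) u ε ∩ Ico (0 : ℝ) 1 := by
    intro z hz
    rw [mem_iUnion₂] at hz
    obtain ⟨w, hw, hz0, hz1⟩ := hz
    rw [mem_iUnion] at hz1
    obtain ⟨k, hk⟩ := hz1
    refine ⟨?_, hz0⟩
    obtain ⟨g, hg, he⟩ := (ht w hw).2.2.2.1
    have hε' := hε w hw g hg he
    have hz2 : z - k ∈ ⇑g '' Ioo u.1 u.2 := by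
      rw [he]
      exact ⟨by linarith [hk.1], by linarith [hk.2]⟩
    obtain ⟨y, hy, hyz⟩ := hz2
    refine ⟨T ^ k * g, mul_mem (T_mem k) hg, ?_, y, hy, ?_⟩
    · rw [Equiv.Perm.mul_apply, Equiv.Perm.mul_apply, T_zpow', T_zpow']
      have : g u.2 + (k : ℝ) - (g u.1 + k) = g u.2 - g u.1 := by ring
      rw [this]
      exact hε'
    · rw [Equiv.Perm.mul_apply, T_zpow', hyz]
      ring
  have hnn : ∀ w ∈ t, 0 ≤ w.2 - w.1 := fun w hw => by linarith [(ht w hw).1.1]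
  have h1 : ENNReal.ofReal (∑ w ∈ t, (w.2 - w.1)) ≤ volume (OL (Gr S) u ε ∩ Ico (0 : ℝ) 1) := by
    rw [ENNReal.ofReal_sum_of_nonneg hnn]
    calc ∑ w ∈ t, ENNReal.ofReal (w.2 - w.1) ≤ ∑ w ∈ t, volume (E w.1 (w.2 - w.1)) :=
          Finset.sum_le_sum fun w hw => vol_E w.1 (w.2 - w.1) (l6 _ _ (ht w hw).1)
      _ = volume (⋃ w ∈ t, E w.1 (w.2 - w.1)) := (measure_biUnion_finset hdis fun w _ => meas_E _ _).symm
      _ ≤ _ := measure_mono hsub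
  exact (ENNReal.ofReal_le_iff_le_toReal (fin_vol _)).1 h1

theorem le_ol0 (hG : Gens K S) (hL : Lam S Λ) {u : ℝ × ℝ} (t : Finset (ℝ × ℝ)) {ε : ℝ}
    (ht : ∀ w ∈ t, w ∈ Nn S Λ u ε) (hε : 0 ≤ ε) : ∑ w ∈ t, (w.2 - w.1) ≤ ol (Gr S) u 0 := by
  apply le_ol hG hL t
  · intro w hw
    obtain ⟨h1, h2, h3, h4, h5⟩ := ht w hw
    exact ⟨h1, h2, h3, h4, by linarith⟩
  · intro w hw g hg he
    exact abs_nonneg _

theorem ol_pos (hG : Gens K S) (hL : Lam S Λ) {u : ℝ × ℝ} (hu : Gap Λ u.1 u.2) : 0 < ol (Gr S) u 0 := by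
  have h1 := norm_mem hG hL hu (one_mem (Gr S)) (ε := 0) (abs_nonneg _)
  have h2 := le_ol0 hG hL {nrm (act 1 u)} (u := u) (ε := 0) (by
    intro w hw
    rw [Finset.mem_singleton.1 hw]
    exact h1) le_rfl
  rw [Finset.sum_singleton] at h2
  linarith [h1.1.1]

/-- an orbit with a gap of length `ε` has long part at least `ε` -/
theorem le_ol_self (hG : Gens K S) (hL : Lam S Λ) {u : ℝ × ℝ} (hu : Gap Λ u.1 u.2) {ε : ℝ} (hε : ε ≤ u.2 - u.1) :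
    ε ≤ ol (Gr S) u ε := by
  have h0 : |(1 : Equiv.Perm ℝ) u.2 - (1 : Equiv.Perm ℝ) u.1| = u.2 - u.1 := by
    rw [Equiv.Perm.one_apply, Equiv.Perm.one_apply, abs_of_pos (by linarith [hu.1])]
  have h1 := norm_mem hG hL hu (one_mem (Gr S)) (ε := ε) (by rw [h0]; exact hε)
  have h2 := le_ol hG hL {nrm (act 1 u)} (u := u) (ε := ε) (by
    intro w hw
    rw [Finset.mem_singleton.1 hw]
    exact h1) (by
    intro w hw g hg he
    rw [Finset.mem_singleton.1 hw] at he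
    obtain ⟨-, h3, h4⟩ := img hG hL hu hg
    rw [he] at h3
    have h5 : min (g u.1) (g u.2) < max (g u.1) (g u.2) := by
      have := (img hG hL hu hg).1.1
      exact this
    obtain ⟨e1, e2⟩ := ioo_inj h1.1.1 h5 h3
    rw [← h4, ← e1, ← e2]
    exact h1.2.2.2.2)
  rw [Finset.sum_singleton] at h2
  linarith [h1.2.2.2.2]

theorem ol_le_one (H : Subgroup (Equiv.Perm ℝ)) (u : ℝ × ℝ) (ε : ℝ) : ol H u ε ≤ 1 := by
  unfold ol
  have h1 : volume (OL H u ε ∩ Ico (0 : ℝ) 1) ≤ ENNReal.ofReal 1 := by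
    calc volume (OL H u ε ∩ Ico (0 : ℝ) 1) ≤ volume (Ico (0 : ℝ) 1) := measure_mono inter_subset_right
      _ = ENNReal.ofReal 1 := by rw [Real.volume_Ico, sub_zero]
  exact ENNReal.toReal_le_of_le_ofReal zero_le_one h1

theorem ol_nonneg (H : Subgroup (Equiv.Perm ℝ)) (u : ℝ × ℝ) (ε : ℝ) : 0 ≤ ol H u ε := ENNReal.toReal_nonneg

theorem ol_anti (H : Subgroup (Equiv.Perm ℝ)) (u : ℝ × ℝ) {ε δ : ℝ} (h : δ ≤ ε) : ol H u ε ≤ ol H u δ := by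
  apply ENNReal.toReal_mono (fin_vol _)
  apply measure_mono
  rintro x ⟨⟨g, hg, h1, h2⟩, h3⟩
  exact ⟨⟨g, hg, h.trans h1, h2⟩, h3⟩

theorem tot_u (hG : Gens K S) (hL : Lam S Λ) {u : ℝ × ℝ} (hu : Gap Λ u.1 u.2) : Tot S u (2 * ol (Gr S) u 0) := by
  classical
  intro s h1 h2
  refine (sum_fib s h2).trans ?_
  apply mul_le_mul_of_nonneg_left _ (by norm_num)
  apply le_ol0 hG hL (s.image nrm) (ε := 0) _ le_rfl
  intro w hw
  obtain ⟨v, hv, rfl⟩ := Finset.mem_image.1 hw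
  obtain ⟨g, hg, rfl⟩ := h1 v hv
  exact norm_mem hG hL hu hg (abs_nonneg _)

theorem tot_w (hG : Gens K S) (hL : Lam S Λ) {u w : ℝ × ℝ} (hu : Gap Λ u.1 u.2) {ε : ℝ} (hw : w ∈ Nn S Λ u ε) :
    Tot S w (2 * ol (Gr S) u 0) := by
  obtain ⟨h1, -, -, ⟨g, hg, he⟩, -⟩ := hw
  obtain ⟨h2, h3, -⟩ := img hG hL hu hg
  rw [he] at h3
  obtain ⟨e1, e2⟩ := ioo_inj h1.1 h2.1 h3
  have ht := tot_u hG hL hu
  rcases le_total (g u.1) (g u.2) with hle | hle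
  · rw [min_eq_left hle] at e1
    rw [max_eq_right hle] at e2
    exact tot_of_orb ht ⟨g, hg, Prod.ext e1 e2⟩
  · rw [min_eq_right hle] at e1
    rw [max_eq_left hle] at e2
    have h4 : Tot S (act g u) (2 * ol (Gr S) u 0) := tot_of_orb ht ⟨g, hg, rfl⟩
    have h5 : w = (act g u).swap := Prod.ext e1 e2
    rw [h5]
    exact tot_swap h4

theorem open_OL (hG : Gens K S) (hL : Lam S Λ) {u : ℝ × ℝ} (hu : Gap Λ u.1 u.2) (ε : ℝ) : IsOpen (OL (Gr S) u ε) := by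
  have h : OL (Gr S) u ε = ⋃ g ∈ {g : Equiv.Perm ℝ | g ∈ Gr S ∧ ε ≤ |g u.2 - g u.1|}, ⇑g '' Ioo u.1 u.2 := by
    ext x
    rw [mem_iUnion₂]
    constructor
    · rintro ⟨g, hg, h1, h2⟩
      exact ⟨g, ⟨hg, h1⟩, h2⟩
    · rintro ⟨g, ⟨hg, h1⟩, h2⟩
      exact ⟨g, hg, h1, h2⟩
  rw [h]
  apply isOpen_biUnion
  rintro g ⟨hg, _⟩
  rw [(img hG hL hu hg).2.1]
  exact isOpen_Ioo

/-- different orbits are disjoint -/
theorem sum_ol (hG : Gens K S) (hL : Lam S Λ) (V : Finset (ℝ × ℝ)) (hV : ∀ u ∈ V, Gap Λ u.1 u.2)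
    (hne : ∀ u ∈ V, ∀ v ∈ V, (∃ g ∈ Gr S, ⇑g '' Ioo u.1 u.2 = Ioo v.1 v.2) → u = v) :
    ∑ u ∈ V, ol (Gr S) u 0 ≤ 1 := by
  have hdis : (↑V : Set (ℝ × ℝ)).PairwiseDisjoint (fun u => OL (Gr S) u 0 ∩ Ico (0 : ℝ) 1) := by
    intro u hu v hv huv
    rw [Function.onFun, Set.disjoint_left]
    rintro z ⟨⟨g, hg, _, hz⟩, _⟩ ⟨⟨k, hk, _, hz'⟩, _⟩
    apply huv
    apply hne u hu v hv
    obtain ⟨a1, a2, -⟩ := img hG hL (hV u hu) hg
    obtain ⟨b1, b2, -⟩ := img hG hL (hV v hv) hk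
    rw [a2] at hz
    rw [b2] at hz'
    obtain ⟨e1, e2⟩ := eq_of_mem hG hL a1 b1 hz hz'
    refine ⟨k⁻¹ * g, mul_mem (inv_mem hk) hg, ?_⟩
    have h1 : ⇑(k⁻¹ * g) = ⇑k⁻¹ ∘ ⇑g := rfl
    rw [h1, image_comp, a2, e1, e2, ← b2, ← image_comp]
    have h2 : ⇑k⁻¹ ∘ ⇑k = id := by
      funext x
      simp
    rw [h2, image_id]
  have hm : ∀ u ∈ V, MeasurableSet (OL (Gr S) u 0 ∩ Ico (0 : ℝ) 1) := fun u hu =>
    (open_OL hG hL (hV u hu) 0).measurableSet.inter measurableSet_Ico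
  have h1 : ∑ u ∈ V, volume (OL (Gr S) u 0 ∩ Ico (0 : ℝ) 1) ≤ ENNReal.ofReal 1 := by
    rw [← measure_biUnion_finset hdis hm]
    calc volume (⋃ u ∈ V, OL (Gr S) u 0 ∩ Ico (0 : ℝ) 1) ≤ volume (Ico (0 : ℝ) 1) := by
          apply measure_mono
          intro x hx
          rw [mem_iUnion₂] at hx
          obtain ⟨u, _, _, h⟩ := hx
          exact h
      _ = ENNReal.ofReal 1 := by rw [Real.volume_Ico, sub_zero]
  have h2 : ∑ u ∈ V, ol (Gr S) u 0 = (∑ u ∈ V, volume (OL (Gr S) u 0 ∩ Ico (0 : ℝ) 1)).toReal :=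
    (ENNReal.toReal_sum fun u _ => fin_vol _).symm
  rw [h2]
  exact ENNReal.toReal_le_of_le_ofReal zero_le_one h1

end

end Pool.Agent.Helper58.LC
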