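import Pool.Agent.Helper82.HG.M_CRD

/-!
# MP_10ef18_an, project LC: truncated packing (after `Helper82/HG/M_INT.lean`)
-/

set_option autoImplicit false

namespace Pool.Agent.Helper58.LC

open Set MeasureTheory Pool.Agent.Helper82.HG

theorem per_int {Λ : Set ℝ} (h : ∀ x, x ∈ Λ ↔ x + 1 ∈ Λ) (m : ℤ) :
    ∀ x, x ∈ Λ ↔ x + m ∈ Λ := by
  induction m using Int.induction_on with
  | zero => intro x; simp
  | succ i ih =>
    intro x
    rw [ih x, h (x + _)]
    push_cast
    rw [add_assoc]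
  | pred i ih =>
    intro x
    rw [ih x, h (x + ((-(i:ℤ) - 1 : ℤ) : ℝ))]
    push_cast
    rw [show x + (-(i:ℝ) - 1) + 1 = x + -(i:ℝ) by ring]

theorem gap_tr {Λ : Set ℝ} (h : ∀ x, x ∈ Λ ↔ x + 1 ∈ Λ) {a b : ℝ} (hg : Gap Λ a b)
    (m : ℤ) : Gap Λ (a + m) (b + m) := by
  obtain ⟨h1, h2, h3, h4⟩ := hg
  refine ⟨by linarith, (per_int h m a).mp h2, (per_int h m b).mp h3, ?_⟩
  rw [Set.eq_empty_iff_forall_notMem] at h4 ⊢
  rintro x ⟨⟨hx1, hx2⟩, hx3⟩
  apply h4 (x - m)
  refine ⟨⟨by linarith, by linarith⟩, ?_⟩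
  rw [per_int h m]
  simpa using hx3

private theorem isol {Λ : Set ℝ} (hp : ∀ x ∈ Λ, ∀ ε > 0, ∃ y ∈ Λ, y ≠ x ∧ |y - x| < ε)
    {a b c : ℝ} (h1 : Gap Λ a b) (h2 : Gap Λ b c) : False := by
  obtain ⟨g1, _, g3, g4⟩ := h1
  obtain ⟨g1', _, _, g4'⟩ := h2
  obtain ⟨y, hy, hne, hlt⟩ := hp b g3 (min (b - a) (c - b)) (lt_min (by linarith) (by linarith))
  rw [lt_min_iff, abs_lt, abs_lt] at hlt
  rw [Set.eq_empty_iff_forall_notMem] at g4 g4'
  rcases lt_or_gt_of_ne hne with h | h
  · exact g4 y ⟨⟨by linarith [hlt.1.1], h⟩, hy⟩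
  · exact g4' y ⟨⟨h, by linarith [hlt.2.2]⟩, hy⟩

theorem gap_sep {Λ : Set ℝ} (hp : ∀ x ∈ Λ, ∀ ε > 0, ∃ y ∈ Λ, y ≠ x ∧ |y - x| < ε)
    {a b a' b' : ℝ} (h1 : Gap Λ a b) (h2 : Gap Λ a' b') (hne : ¬ (a = a' ∧ b = b')) :
    b < a' ∨ b' < a := by
  by_contra hc
  push Not at hc
  obtain ⟨hc1, hc2⟩ := hc
  have e1 := h1.2.2.2
  have e2 := h2.2.2.2
  rw [Set.eq_empty_iff_forall_notMem] at e1 e2
  by_cases q1 : a' = b
  · subst q1; exact isol hp h1 h2
  by_cases q2 : a = b'
  · subst q2; exact isol hp h2 h1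
  have r1 : a' ≤ a := by
    by_contra h
    push Not at h
    exact e1 a' ⟨⟨h, lt_of_le_of_ne hc1 q1⟩, h2.2.1⟩
  have r2 : a ≤ a' := by
    by_contra h
    push Not at h
    exact e2 a ⟨⟨h, lt_of_le_of_ne hc2 q2⟩, h1.2.1⟩
  have r3 : a = a' := le_antisymm r2 r1
  subst r3
  apply hne
  refine ⟨rfl, le_antisymm ?_ ?_⟩
  · by_contra h
    push Not at h
    exact e1 b' ⟨⟨h2.1, h⟩, h2.2.2.1⟩
  · by_contra h
    push Not at h
    exact e2 b ⟨⟨h1.1, h⟩, h1.2.2.1⟩

def E (c r : ℝ) : Set ℝ := Ico (0:ℝ) 1 ∩ ⋃ k : ℤ, Ioo (c + k) (c + k + r)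

theorem meas_E (c r : ℝ) : MeasurableSet (E c r) :=
  measurableSet_Ico.inter (MeasurableSet.iUnion fun _ => measurableSet_Ioo)

theorem vol_E (c r : ℝ) :
    r ≤ 1 → ENNReal.ofReal r ≤ volume (E c r) := by
  intro hr1
  unfold E
  set d := Int.fract c with hd
  have hd0 : 0 ≤ d := Int.fract_nonneg c
  have hd1 : d < 1 := Int.fract_lt_one c
  have hc : (⌊c⌋ : ℝ) + d = c := Int.floor_add_fract c
  by_cases h : d + r ≤ 1
  · calc ENNReal.ofReal r = volume (Ioo d (d + r)) := by
          rw [Real.volume_Ioo]; congr 1; ring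
      _ ≤ _ := by
        apply measure_mono
        intro z hz
        refine ⟨⟨by linarith [hz.1], by linarith [hz.2]⟩, ?_⟩
        rw [mem_iUnion]
        refine ⟨-⌊c⌋, ?_, ?_⟩
        · push_cast; linarith [hz.1]
        · push_cast; linarith [hz.2]
  · push Not at h
    have hdis : Disjoint (Ioo d 1) (Ioo 0 (d + r - 1)) := by
      rw [Set.disjoint_left]
      rintro z ⟨h1, _⟩ ⟨_, h2⟩
      linarith
    calc ENNReal.ofReal r = ENNReal.ofReal (1 - d) + ENNReal.ofReal (d + r - 1) := by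
          rw [← ENNReal.ofReal_add (by linarith) (by linarith)]; congr 1; ring
      _ = volume (Ioo d 1) + volume (Ioo 0 (d + r - 1)) := by
          rw [Real.volume_Ioo, Real.volume_Ioo, sub_zero]
      _ = volume (Ioo d 1 ∪ Ioo 0 (d + r - 1)) := (measure_union hdis measurableSet_Ioo).symm
      _ ≤ _ := by
        apply measure_mono
        rintro z (hz | hz)
        · refine ⟨⟨by linarith [hz.1], by linarith [hz.2]⟩, ?_⟩
          rw [mem_iUnion]
          refine ⟨-⌊c⌋, ?_, ?_⟩
          · push_cast; linarith [hz.1]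
          · push_cast; linarith [hz.2]
        · refine ⟨⟨by linarith [hz.1], by linarith [hz.2]⟩, ?_⟩
          rw [mem_iUnion]
          refine ⟨-⌊c⌋ - 1, ?_, ?_⟩
          · push_cast; linarith [hz.1]
          · push_cast; linarith [hz.2]

/-- every point is at distance at most one from `Λ` -/
theorem infDist_le_one {Λ : Set ℝ} (hper : ∀ x, x ∈ Λ ↔ x + 1 ∈ Λ) (hne : Λ.Nonempty) (z : ℝ) :
    Metric.infDist z Λ ≤ 1 := by
  obtain ⟨x, hx⟩ := hne
  have h1 : x + (⌊z - x⌋ : ℤ) ∈ Λ := (per_int hper ⌊z - x⌋ x).mp hx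
  have h2 := Metric.infDist_le_dist_of_mem (x := z) h1
  have h3 := Int.floor_le (z - x)
  have h4 := Int.lt_floor_add_one (z - x)
  rw [Real.dist_eq] at h2
  refine h2.trans ?_
  rw [abs_le]
  constructor <;> linarith

/-- the truncated logarithm of the distance is integrable -/
theorem int_log {Λ : Set ℝ} {m : ℝ} (hm : 0 < m) :
    IntegrableOn (fun z => Real.log (1 / max (Metric.infDist z Λ) m)) (Icc (0 : ℝ) 1) volume := by
  apply ContinuousOn.integrableOn_Icc
  apply Continuous.continuousOn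
  apply Continuous.log
  · apply Continuous.div continuous_const
    · exact (Metric.continuous_infDist_pt Λ).max continuous_const
    · intro z
      exact (lt_of_lt_of_le hm (le_max_right _ _)).ne'
  · intro z
    have : 0 < max (Metric.infDist z Λ) m := lt_of_lt_of_le hm (le_max_right _ _)
    positivity

/-- PACKING. Gaps with radii `R u ∈ [r, 1]` which are separated by the smaller radius. -/
theorem pack (Λ : Set ℝ) (hcl : IsClosed Λ) (hper : ∀ x, x ∈ Λ ↔ x + 1 ∈ Λ) (hΛne : Λ.Nonempty)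
    (hperf : ∀ x ∈ Λ, ∀ ε > 0, ∃ y ∈ Λ, y ≠ x ∧ |y - x| < ε)
    (s : Finset (ℝ × ℝ)) (R : ℝ × ℝ → ℝ) (r : ℝ) (hr0 : 0 < r) (hr1 : r ≤ 1) (hgap : ∀ u ∈ s, Gap Λ u.1 u.2)
    (hR : ∀ u ∈ s, r ≤ R u ∧ R u ≤ 1) (heqv : ∀ u ∈ s, ∀ w ∈ s, Eqv u w → u = w)
    (hsep : ∀ u ∈ s, ∀ w ∈ s, ∀ m : ℤ, u.2 < w.1 + m → min (R u) (R w) ≤ w.1 + m - u.2) :
    ∑ u ∈ s, R u ≤ 4 * ∫ z in Icc (0 : ℝ) 1, Real.log (1 / max (Metric.infDist z Λ) (r / 4)) := by
  classical
  have hRp : ∀ u ∈ s, 0 < R u := fun u hu => lt_of_lt_of_le hr0 (hR u hu).1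
  have hlog2 : (1 / 2 : ℝ) < Real.log 2 := by linarith [Real.log_two_gt_d9]
  -- pointwise bound
  have hpt : ∀ z, ((s.filter (fun u => z ∈ E u.2 (R u / 4))).card : ℝ)
      ≤ Real.log (1 / max (Metric.infDist z Λ) (r / 4)) := by
    intro z
    set A := s.filter (fun u => z ∈ E u.2 (R u / 4)) with hA
    set δ := max (Metric.infDist z Λ) (r / 4) with hδ
    have hδ0 : 0 < δ := lt_of_lt_of_le (by linarith) (le_max_right _ _)
    have hδ1 : δ ≤ 1 := max_le (infDist_le_one hper hΛne z) (by linarith)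
    have hlogδ : Real.log δ ≤ 0 := Real.log_nonpos hδ0.le hδ1
    have elog : Real.log (1 / δ) = - Real.log δ := by rw [one_div, Real.log_inv]
    rcases A.eq_empty_or_nonempty with he | hne
    · rw [he, elog]
      simp only [Finset.card_empty, Nat.cast_zero]
      linarith
    have hmem : ∀ u ∈ A, u ∈ s ∧ ∃ k : ℤ, u.2 + k < z ∧ z < u.2 + k + R u / 4 := by
      intro u hu
      rw [hA, Finset.mem_filter] at hu
      obtain ⟨h1, _, h2⟩ := hu
      rw [mem_iUnion] at h2
      obtain ⟨k, hk⟩ := h2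
      exact ⟨h1, k, hk.1, hk.2⟩
    have hδR : ∀ u ∈ A, 4 * δ ≤ R u := by
      intro u hu
      obtain ⟨h1, k, hk1, hk2⟩ := hmem u hu
      have h3 : u.2 + k ∈ Λ := (per_int hper k u.2).mp (hgap u h1).2.2.1
      have h4 : Metric.infDist z Λ ≤ dist z (u.2 + k) := Metric.infDist_le_dist_of_mem h3
      rw [Real.dist_eq, abs_of_pos (by linarith)] at h4
      have h5 : δ ≤ R u / 4 := max_le (by linarith) (by linarith [(hR u h1).1])
      linarith
    have hlac : ∀ u ∈ A, ∀ w ∈ A, u ≠ w → 4 * R w < R u ∨ 4 * R u < R w := by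
      intro u hu w hw huw
      obtain ⟨h1, k, hk1, hk2⟩ := hmem u hu
      obtain ⟨h1', n, hn1, hn2⟩ := hmem w hw
      have g1 := gap_tr hper (hgap u h1) k
      have g2 := gap_tr hper (hgap w h1') n
      have hx : ¬ (u.1 + k = w.1 + n ∧ u.2 + k = w.2 + n) := by
        rintro ⟨e1, e2⟩
        apply huw
        apply heqv u h1 w h1'
        refine ⟨k - n, ?_, ?_⟩
        · push_cast; linarith
        · push_cast; linarith
      rcases gap_sep hperf g1 g2 hx with h | h
      · left
        have := hsep u h1 w h1' (n - k) (by push_cast; linarith)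
        push_cast at this
        have h5 : w.1 < w.2 := (hgap w h1').1
        have hRw := hRp w h1'
        have h6 : min (R u) (R w) < R u / 4 := by linarith
        rcases min_lt_iff.mp h6 with h7 | h7
        · linarith [hRp u h1]
        · linarith
      · right
        have := hsep w h1' u h1 (k - n) (by push_cast; linarith)
        push_cast at this
        have h5 : u.1 < u.2 := (hgap u h1).1
        have h6 : min (R w) (R u) < R w / 4 := by linarith
        rcases min_lt_iff.mp h6 with h7 | h7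
        · linarith [hRp w h1']
        · linarith
    have hinj : Set.InjOn (fun u => √(R u)) (A : Set (ℝ × ℝ)) := by
      intro u hu w hw h
      by_contra hne
      have hu' : u ∈ A := hu
      have hw' : w ∈ A := hw
      have h3 := hlac u hu' w hw' hne
      have hR1 := hRp u (hmem u hu').1
      have hR2 := hRp w (hmem w hw').1
      have h4 : R u = R w := by
        have h5 : √(R u) = √(R w) := h
        have := congrArg (fun t => t ^ 2) h5
        simp only [Real.sq_sqrt hR1.le, Real.sq_sqrt hR2.le] at this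
        exact this
      rcases h3 with h3 | h3 <;> linarith
    have hcard := tCRD (A.image (fun u => √(R u))) (√(4 * δ)) (Real.sqrt_pos.mpr (by positivity))
      ?_ ?_ ?_
    · rw [Finset.card_image_of_injOn hinj] at hcard
      refine hcard.trans ?_
      have e1 : Real.log (1 / √(4 * δ)) = - Real.log 2 - Real.log δ / 2 := by
        rw [one_div, Real.log_inv, Real.log_sqrt (by positivity),
          Real.log_mul (by norm_num) hδ0.ne', show (4 : ℝ) = 2 ^ 2 by norm_num, Real.log_pow]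
        push_cast
        ring
      rw [e1, elog]
      have e2 : 1 + (-Real.log 2 - Real.log δ / 2) / Real.log 2
          = (- Real.log δ) / (2 * Real.log 2) := by
        field_simp
        ring
      rw [e2]
      apply div_le_self (by linarith)
      linarith
    · obtain ⟨u, hu⟩ := hne
      have h1 := hδR u hu
      have h2 := (hR u (hmem u hu).1).2
      rw [Real.sqrt_le_one]
      linarith
    · intro r hr
      rw [Finset.mem_image] at hr
      obtain ⟨u, hu, rfl⟩ := hr
      refine ⟨Real.sqrt_le_sqrt (hδR u hu), ?_⟩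
      rw [Real.sqrt_le_one]
      exact (hR u (hmem u hu).1).2
    · intro r hr r' hr' hrr
      rw [Finset.mem_image] at hr hr'
      obtain ⟨u, hu, rfl⟩ := hr
      obtain ⟨w, hw, rfl⟩ := hr'
      have hR1 := hRp u (hmem u hu).1
      have hR2 := hRp w (hmem w hw).1
      have hlt : R u < R w := by
        rwa [Real.sqrt_lt_sqrt_iff hR1.le] at hrr
      have hne : u ≠ w := by
        rintro rfl
        exact lt_irrefl _ hlt
      have h3 : 4 * R u < R w := by
        rcases hlac u hu w hw hne with h | h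
        · linarith
        · exact h
      calc 2 * √(R u) = √(4 * R u) := by
            rw [Real.sqrt_mul (by norm_num), show (4 : ℝ) = 2 ^ 2 by norm_num,
              Real.sqrt_sq (by norm_num)]
        _ < √(R w) := Real.sqrt_lt_sqrt (by linarith) h3
  -- integration
  have hsub : ∀ u : ℝ × ℝ, E u.2 (R u / 4) ⊆ Icc (0:ℝ) 1 := fun u z hz =>
    ⟨hz.1.1, hz.1.2.le⟩
  have h1 : ∑ u ∈ s, R u / 4 ≤ ∑ u ∈ s,
      ∫ z in Icc (0:ℝ) 1, (E u.2 (R u / 4)).indicator (1 : ℝ → ℝ) z := by
    apply Finset.sum_le_sum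
    intro u hu
    rw [integral_indicator_one (meas_E _ _), Measure.real, Measure.restrict_apply (meas_E _ _),
      inter_eq_self_of_subset_left (hsub u)]
    have hfin : volume (E u.2 (R u / 4)) ≠ ⊤ := by
      apply ne_top_of_le_ne_top _ (measure_mono (hsub u))
      rw [Real.volume_Icc]
      exact ENNReal.ofReal_ne_top
    have := vol_E u.2 (R u / 4) (by linarith [(hR u hu).2])
    rw [ENNReal.ofReal_le_iff_le_toReal hfin] at this
    exact this
  rw [← integral_finsetSum] at h1
  swap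
  · intro u hu
    exact (integrable_const (1:ℝ)).indicator (meas_E _ _)
  have h2 : ∫ z in Icc (0:ℝ) 1, ∑ u ∈ s, (E u.2 (R u / 4)).indicator (1 : ℝ → ℝ) z
      ≤ ∫ z in Icc (0:ℝ) 1, Real.log (1 / max (Metric.infDist z Λ) (r / 4)) := by
    apply integral_mono
    · apply integrable_finsetSum
      intro u hu
      exact (integrable_const (1:ℝ)).indicator (meas_E _ _)
    · exact int_log (by linarith)
    · intro z
      refine le_trans (le_of_eq ?_) (hpt z)
      rw [Finset.card_filter]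
      push_cast
      apply Finset.sum_congr rfl
      intro u hu
      rw [Set.indicator_apply]
      rfl
  rw [← Finset.sum_div] at h1
  linarith

end Pool.Agent.Helper58.LC
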